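import Mathlib
import Pool.Agent.H595Z.LOCore

set_option autoImplicit false

namespace Pool.Agent.Results.MP_9ae2f3_gt.AOppositeTangle

open Pool.Agent.H595Z.LO

/-- Put rational tangles `r d / s d` of one sign on the edges of a connected map, and a rational
tangle of the opposite sign on the edge `e`. If there is a short walk between the ends of `e`, or a
short dual walk between the faces at `e`, then the group of the double branched cover is not
left-orderable. -/
theorem result (D : Type) [Finite D] (σ α : Equiv.Perm D) (hm : IsMap σ α) (e : D)
    (r s : D → ℕ) (hr : ∀ d, 0 < r d ∧ r (α d) = r d) (hs : ∀ d, 0 < s d ∧ s (α d) = s d)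
    (hw : Short σ (σ * α) α e r s ∨ Short (σ * α) σ α e s r) :
    ¬ IsLeftOrderable (PresentedGroup (rels σ α e r s)) :=
  not_lo hm e r s (fun d => (hr d).1) (fun d => (hs d).1) hw

end Pool.Agent.Results.MP_9ae2f3_gt.AOppositeTangle
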